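import Pool.Agent.NH16.PairStruct

/-!
# The error term of the Hardy-Littlewood conjecture for pairs with short shifts

For almost all shifts `h ≤ H`, where `N ^ ε ≤ H ≤ N ^ (1 - ε)`, the number of prime pairs `(n, n + h)` with
`n ≤ N`, divided by `N / log² N`, is the singular series plus a sum of boundedly many cosines in `h` with
nonnegative coefficients, up to `η`.
-/

set_option autoImplicit false

namespace Pool.Agent.Results.MP_e87c7d_nt.AlmostPeriodicErrorOfPairs

open Finset Filter

/-- The number of `n ≤ N` such that `n` and `n + h` are prime. -/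
def primePairs (N h : ℕ) : ℕ := ((Icc 1 N).filter (fun n => n.Prime ∧ (n + h).Prime)).card

/-- The Hardy-Littlewood singular series of the pair `(0, h)`, a product over all primes. -/
noncomputable def singularSeries (h : ℕ) : ℝ :=
  ∏' p : Nat.Primes, (1 - (if (p : ℕ) ∣ h then 1 else 2) / (p : ℝ)) / (1 - 1 / (p : ℝ)) ^ 2

lemma singularSeries_eq (h : ℕ) :
    Pool.Agent.H386R2.HL.singularSeries (![0, h] : Fin 2 → ℕ) = singularSeries h := by
  unfold Pool.Agent.H386R2.HL.singularSeries singularSeries
  congr 1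
  ext p
  unfold Pool.Agent.H386R2.HL.localFactor
  have h1 : (Pool.Agent.H386R2.HL.nu (![0, h] : Fin 2 → ℕ) p : ℝ) = if (p : ℕ) ∣ h then 1 else 2 := by
    unfold Pool.Agent.H386R2.HL.nu
    have h2 : univ.image (fun i => (![0, h] : Fin 2 → ℕ) i % (p : ℕ)) = {0, h % p} := by
      ext v
      simp only [mem_image, mem_univ, true_and, mem_insert, mem_singleton, Fin.exists_fin_two]
      constructor
      · rintro (h1 | h1)
        · left
          simpa using h1.symm
        · right
          exact h1.symm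
      · rintro (h1 | h1)
        · left
          simpa using h1.symm
        · right
          exact h1.symm
    rw [h2]
    split_ifs with h3
    · rw [Nat.mod_eq_zero_of_dvd h3]
      simp
    · rw [card_pair]
      · norm_num
      · intro h4
        exact h3 (Nat.dvd_of_mod_eq_zero h4.symm)
  rw [h1, inv_pow, inv_mul_eq_div]

/-- For all `ε, η > 0` there is `K` such that for all large `N` and all `H` with
`N ^ ε ≤ H ≤ N ^ (1 - ε)` there are `0 ≤ c 1, ..., c K ≤ K` and real `α 1, ..., α K` such that
`π(N; 0, h) log² N / N = 𝔖(0, h) + ∑ j, c j cos (2 π α j h)` up to `η`, for all but at most `η H` of the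
shifts `h ≤ H`. -/
theorem result (ε η : ℝ) (hε : 0 < ε) (hη : 0 < η) : ∃ K : ℕ, ∀ᶠ N : ℕ in atTop,
    ∀ H : ℕ, (N : ℝ) ^ ε ≤ H → (H : ℝ) ≤ (N : ℝ) ^ (1 - ε) →
      ∃ c α : Fin K → ℝ, (∀ j, 0 ≤ c j ∧ c j ≤ K) ∧
        (((Icc 1 H).filter (fun h => η < |Real.log N ^ 2 / N * primePairs N h - singularSeries h -
          ∑ j, c j * Real.cos (2 * Real.pi * (α j * h))|)).card : ℝ) ≤ η * H := by
  obtain ⟨K, hK⟩ := Pool.Agent.NH16.pair_struct (min ε (1 / 2)) η (lt_min hε (by norm_num))
    (min_le_right _ _) hη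
  refine ⟨K, ?_⟩
  filter_upwards [hK, eventually_ge_atTop 1] with N hN hN1 H hH1 hH2
  have hN1' : (1 : ℝ) ≤ N := by exact_mod_cast hN1
  have h := hN H ((Real.rpow_le_rpow_of_exponent_le hN1' (min_le_left _ _)).trans hH1)
    (hH2.trans (Real.rpow_le_rpow_of_exponent_le hN1' (by linarith [min_le_left ε (1 / 2)])))
  simp only [singularSeries_eq] at h
  exact h

end Pool.Agent.Results.MP_e87c7d_nt.AlmostPeriodicErrorOfPairs
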