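import Pool.Agent.NH16.SM.Main

/-!
# Prime tuples whose shifts are bounded multiples of almost all short vectors

For almost all vectors `h ∈ [1, H] ^ r` of shifts, where `b log N ≤ H ≤ N ^ (1 - ε)`, the numbers of the prime
`r`-tuples `n + m k h 1, ..., n + m k h r`, `n ≤ N`, averaged over the bounded multiples `k ≤ K`, are
`E X ^ r` times the prediction of Hardy and Littlewood, with a nonnegative random variable `X` of mean value
nearly `1` which depends neither on the vector nor on its length `r`.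
-/

set_option autoImplicit false

namespace Pool.Agent.Results.MP_e87c7d_nt.BoundedMultiplesOfShifts

open Finset Filter

/-- `π(N; a 1, ..., a r)`, the number of `1 ≤ n ≤ N` such that all `n + a i` are prime. -/
def primeTuples {r : ℕ} (a : Fin r → ℕ) (N : ℕ) : ℕ := ((Icc 1 N).filter (fun n => ∀ i, (n + a i).Prime)).card

/-- The number of residue classes modulo `p` occupied by the `a i`. -/
def nu {r : ℕ} (a : Fin r → ℕ) (p : ℕ) : ℕ := (univ.image (fun i => a i % p)).card

/-- The singular series `𝔖(a 1, ..., a r)`, a product over all primes. -/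
noncomputable def singularSeries {r : ℕ} (a : Fin r → ℕ) : ℝ :=
  ∏' p : Nat.Primes, (1 - (nu a p : ℝ) / p) / (1 - 1 / (p : ℝ)) ^ r

/-- The conjectured main term `𝔖(a) N / (log N) ^ r`. -/
noncomputable def mainTerm {r : ℕ} (a : Fin r → ℕ) (N : ℕ) : ℝ := singularSeries a * (N / Real.log N ^ r)

lemma singularSeries_eq {r : ℕ} (a : Fin r → ℕ) :
    Pool.Agent.H386R2.HL.singularSeries a = singularSeries a := by
  unfold Pool.Agent.H386R2.HL.singularSeries singularSeries
  congr 1
  ext p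
  unfold Pool.Agent.H386R2.HL.localFactor
  rw [inv_pow, inv_mul_eq_div]
  rfl

/-- For every `R` there is `C` such that for every `δ > 0` there are `B` and `b` such that for every `ε > 0`, all
large `N` and all `H` with `b log N ≤ H ≤ N ^ (1 - ε)` there are positive integers `m, K ≤ B` and a nonnegative
random variable `X` (on `T` equally likely points) with mean value `1 + O(δ)` and `r`-th moments at most `C` such
that for every `1 ≤ r ≤ R` and all but at most `δ H ^ r` of the vectors `h ∈ [1, H] ^ r` the sum over `k ≤ K` of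
`π(N; m k h 1, ..., m k h r)` differs from `E X ^ r` times the sum of the conjectured main terms by at most `δ`
times the latter sum. -/
theorem result (R : ℕ) : ∃ C : ℝ, ∀ δ : ℝ, 0 < δ → ∃ (B : ℕ) (b : ℝ), ∀ ε : ℝ, 0 < ε → ∀ᶠ N : ℕ in atTop,
    ∀ H : ℕ, b * Real.log N ≤ H → (H : ℝ) ≤ (N : ℝ) ^ (1 - ε) →
      ∃ (m K T : ℕ) (X : Fin T → ℝ), 1 ≤ m ∧ m ≤ B ∧ 1 ≤ K ∧ K ≤ B ∧ 1 ≤ T ∧ (∀ j, 0 ≤ X j) ∧
        |(∑ j, X j) / T - 1| ≤ δ ∧ ∀ r : ℕ, 1 ≤ r → r ≤ R → (∑ j, X j ^ r) / T ≤ C ∧
          (((Fintype.piFinset (fun _ : Fin r => Icc 1 H)).filter (fun h =>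
            δ * ∑ k ∈ Icc 1 K, mainTerm (fun i => m * k * h i) N <
              |∑ k ∈ Icc 1 K, (primeTuples (fun i => m * k * h i) N : ℝ) -
                (∑ j, X j ^ r) / T * ∑ k ∈ Icc 1 K, mainTerm (fun i => m * k * h i) N|)).card : ℝ) ≤
            δ * (H : ℝ) ^ r := by
  obtain ⟨C, -, h⟩ := Pool.Agent.NH16.SM.Main.main R
  refine ⟨C, fun δ hδ => ?_⟩
  obtain ⟨B, b, h⟩ := h δ hδ
  refine ⟨B, b, fun ε hε => ?_⟩
  filter_upwards [h ε hε] with N hN H hH1 hH2
  obtain ⟨m, K, T, X, h1, h2, h3, h4, h5, h6, h7, h8⟩ := hN H hH1 hH2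
  refine ⟨m, K, T, X, h1, h2, h3, h4, h5, h6, h7, fun r hr1 hrR => ?_⟩
  obtain ⟨n, rfl⟩ := Nat.exists_eq_add_of_le' hr1
  obtain ⟨h9, h10⟩ := h8 n (by omega)
  refine ⟨h9, ?_⟩
  refine le_trans (le_of_eq ?_) h10
  congr 2
  refine filter_congr fun a _ => ?_
  have e : ∀ k : ℕ, mainTerm (fun i => m * k * a i) N =
      (N / Real.log N ^ (n + 1)) * Pool.Agent.H386R2.HL.singularSeries (fun i => m * k * a i) := by
    intro k
    unfold mainTerm
    rw [singularSeries_eq, mul_comm]
  simp only [e]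
  rfl

end Pool.Agent.Results.MP_e87c7d_nt.BoundedMultiplesOfShifts
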