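import Mathlib
import Pool.Agent.NH16.QF.All

set_option autoImplicit false

/-!
# Almost all sets of short shifts contain `5 / 18` of their elements with many prime tuples

`primeTuples N T` is `π(N; T)`, the number of the `1 ≤ n ≤ N` such that all `n + t`, `t ∈ T`, are prime.

For every `λ > 0`, all large `N` and all `H` with `λ log N ≤ H ≤ N / 100`, almost all `r`-element subsets `A` of
`{1, ..., H}` have the following property: every nonempty admissible subset `T` of `A` contains a set `I` of at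
least `5 |T| / 18` shifts with `π(N; I) ≥ κ 𝔖(I) N / (log N) ^ |I|`, where `κ > 0` depends on `r`, `λ` and the
meaning of `almost all` only.

The coloured Maynard-Tao theorem with the constant `18 / 5`, uniform in the shifts and with the right order of
magnitude (`Pool.Agent.Y827.RO.thmR`), is from the starting files.
-/

namespace Pool.Agent.Results.MP_e87c7d_nt.FiveEighteenthsOfShifts

open Finset Filter

/-- the number of the residue classes modulo `p` occupied by the elements of `T` -/
def nu (T : Finset ℕ) (p : ℕ) : ℕ := (T.image (fun t => t % p)).card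

/-- `T` misses a residue class modulo every prime -/
def Admissible (T : Finset ℕ) : Prop := ∀ p : ℕ, p.Prime → nu T p < p

/-- the singular series, a product over all primes -/
noncomputable def singularSeries (T : Finset ℕ) : ℝ :=
  ∏' p : Nat.Primes, (1 - (nu T p : ℝ) / ((p : ℕ) : ℝ)) / (1 - 1 / ((p : ℕ) : ℝ)) ^ T.card

/-- the number of the `1 ≤ n ≤ N` such that all `n + t`, `t ∈ T`, are prime -/
def primeTuples (N : ℕ) (T : Finset ℕ) : ℕ := ((Icc 1 N).filter (fun n => ∀ t ∈ T, (n + t).Prime)).card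

/-- The property of the set `A` of shifts: every nonempty admissible subset `T` of `A` has a subset `I` with
`|I| ≥ 5 |T| / 18` such that `π(N; I)` is at least `κ` times the prediction. -/
def Rich (κ : ℝ) (N : ℕ) (A : Finset ℕ) : Prop :=
  ∀ T ⊆ A, T.Nonempty → Admissible T → ∃ I ⊆ T, 5 * T.card ≤ 18 * I.card ∧
    κ * (singularSeries I * (N / Real.log N ^ I.card)) ≤ primeTuples N I

lemma choose_ge {r H : ℕ} (h : 2 * r ≤ H) : (H : ℝ) ^ r ≤ 2 ^ r * r.factorial * (H.choose r : ℝ) := by
  have h1 := Nat.pow_sub_le_descFactorial H r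
  have h2 : (H : ℝ) ≤ 2 * ((H + 1 - r : ℕ) : ℝ) := by
    have : H ≤ 2 * (H + 1 - r) := by omega
    exact_mod_cast this
  have h3 : H.descFactorial r = r.factorial * H.choose r := Nat.descFactorial_eq_factorial_mul_choose H r
  have h4 : (((H + 1 - r : ℕ) : ℝ)) ^ r ≤ (r.factorial : ℝ) * (H.choose r : ℝ) := by
    rw [h3] at h1
    exact_mod_cast h1
  calc (H : ℝ) ^ r ≤ (2 * ((H + 1 - r : ℕ) : ℝ)) ^ r := pow_le_pow_left₀ (Nat.cast_nonneg _) h2 _
    _ = 2 ^ r * ((H + 1 - r : ℕ) : ℝ) ^ r := mul_pow _ _ _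
    _ ≤ 2 ^ r * ((r.factorial : ℝ) * (H.choose r : ℝ)) := mul_le_mul_of_nonneg_left h4 (by positivity)
    _ = _ := by ring

open Classical in
/-- The singular series converge and are positive for admissible sets.  For all `r`, `ε > 0` and `lam > 0` there is
`κ > 0` such that for all large `N` and all `H` with `lam log N ≤ H ≤ N / 100` all but at most `ε (H choose r)` of the
`r`-element subsets `A` of `{1, ..., H}` have the property `Rich κ N A`. -/
theorem result :
    (∀ T : Finset ℕ, HasProd (fun p : Nat.Primes =>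
      (1 - (nu T p : ℝ) / ((p : ℕ) : ℝ)) / (1 - 1 / ((p : ℕ) : ℝ)) ^ T.card) (singularSeries T) ∧
      (Admissible T → 0 < singularSeries T)) ∧
    ∀ (r : ℕ) (ε lam : ℝ), 0 < ε → 0 < lam → ∃ κ : ℝ, 0 < κ ∧ ∀ᶠ N : ℕ in atTop, ∀ H : ℕ,
      lam * Real.log N ≤ H → 100 * H ≤ N →
      ((((Icc 1 H).powersetCard r).filter (fun A => ¬ Rich κ N A)).card : ℝ) ≤ ε * (H.choose r : ℝ) := by
  refine ⟨fun T => ⟨Pool.Agent.H387R2.Uni.CT_hasProd T, fun hT => ?_⟩, fun r ε lam hε hlam => ?_⟩
  · change 0 < Pool.Agent.H387R2.Uni.CT T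
    rw [← Pool.Agent.H387R2.Uni.CT_en]
    apply Pool.Agent.H386R2.HL.singularSeries_pos (Pool.Agent.H387R2.Uni.en_inj T)
    intro p hp
    rw [Pool.Agent.H387R2.Uni.nu_en]
    exact hT p hp
  · have hf : (0 : ℝ) < 2 ^ r * r.factorial := by positivity
    obtain ⟨κ, hκ, h⟩ := Pool.Agent.NH16.QF.fin_holds r (ε / (2 ^ r * r.factorial)) lam (by positivity) hlam
    refine ⟨κ, hκ, ?_⟩
    have tL : Tendsto (fun N : ℕ => lam * Real.log (N : ℝ)) atTop atTop :=
      (Real.tendsto_log_atTop.comp tendsto_natCast_atTop_atTop).const_mul_atTop hlam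
    filter_upwards [h, tL.eventually_ge_atTop ((2 * r : ℕ) : ℝ)] with N hN hN2 H hH1 hH2
    have h2r : 2 * r ≤ H := by exact_mod_cast hN2.trans hH1
    have h1 := hN H hH1 hH2
    have h2 : (((Icc 1 H).powersetCard r).filter (fun A => ¬ Rich κ N A)) ⊆
        ((Icc 1 H).powersetCard r).filter (fun A => ∃ T ⊆ A, T.Nonempty ∧ Pool.Agent.H387R2.Uni.Adm T ∧
          ∀ I ⊆ T, 5 * T.card ≤ 18 * I.card → (Pool.Agent.H387R2.MB.piN N I : ℝ) <
            κ * (Pool.Agent.H387R2.Uni.CT I * (N / Real.log N ^ I.card))) := by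
      intro A hA
      rw [mem_filter] at hA ⊢
      refine ⟨hA.1, ?_⟩
      have h3 := hA.2
      unfold Rich at h3
      push Not at h3
      obtain ⟨T, hT1, hT2, hT3, hT4⟩ := h3
      exact ⟨T, hT1, hT2, hT3, fun I hI hIc => hT4 I hI hIc⟩
    calc ((((Icc 1 H).powersetCard r).filter (fun A => ¬ Rich κ N A)).card : ℝ) ≤
          ((((Icc 1 H).powersetCard r).filter (fun A => ∃ T ⊆ A, T.Nonempty ∧ Pool.Agent.H387R2.Uni.Adm T ∧
          ∀ I ⊆ T, 5 * T.card ≤ 18 * I.card → (Pool.Agent.H387R2.MB.piN N I : ℝ) <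
            κ * (Pool.Agent.H387R2.Uni.CT I * (N / Real.log N ^ I.card)))).card : ℝ) := by
          exact_mod_cast card_le_card h2
      _ ≤ ε / (2 ^ r * r.factorial) * (H : ℝ) ^ r := h1
      _ ≤ ε / (2 ^ r * r.factorial) * (2 ^ r * r.factorial * (H.choose r : ℝ)) :=
          mul_le_mul_of_nonneg_left (choose_ge h2r) (by positivity)
      _ = ε * (H.choose r : ℝ) := by
          field_simp

end Pool.Agent.Results.MP_e87c7d_nt.FiveEighteenthsOfShifts
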