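import Pool.Agent.NH16.BT.Main

/-!
# Prime tuples with short shifts: boundedly many types of shifts

For almost all vectors of shifts `h ∈ [1, H] ^ r`, where `b log N ≤ H ≤ N ^ (1 - ε)`, the number of prime tuples
`n + h 1, ..., n + h r`, `n ≤ N`, is the prediction of Hardy and Littlewood times a factor which depends only on
the types of the shifts `h 1, ..., h r`.  There are boundedly many types, given by residues, sizes and a bounded
number of phases `α j * h`, and the factor is at least `1 - δ` if all components of `h` have the same type.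
-/

set_option autoImplicit false

namespace Pool.Agent.Results.MP_e87c7d_nt.TypesOfShifts

open Finset Filter

/-- `π(N; h 1, ..., h r)`, the number of `1 ≤ n ≤ N` such that all `n + h i` are prime. -/
def primeTuples {r : ℕ} (h : Fin r → ℕ) (N : ℕ) : ℕ := ((Icc 1 N).filter (fun n => ∀ i, (n + h i).Prime)).card

/-- The number of residue classes modulo `p` occupied by the `h i`. -/
def nu {r : ℕ} (h : Fin r → ℕ) (p : ℕ) : ℕ := (univ.image (fun i => h i % p)).card

/-- The singular series `𝔖(h 1, ..., h r)`, a product over all primes. -/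
noncomputable def singularSeries {r : ℕ} (h : Fin r → ℕ) : ℝ :=
  ∏' p : Nat.Primes, (1 - (nu h p : ℝ) / p) / (1 - 1 / (p : ℝ)) ^ r

/-- The type of a shift `h ∈ [1, H]`: its residue modulo `m`, the integer part of `K h / H`, and the integer parts of
`K` times the fractional parts of the numbers `α j * h`. -/
noncomputable def shiftType (K m H : ℕ) (α : Fin K → ℝ) (h : ℕ) : ℕ × ℕ × (Fin K → ℕ) :=
  (h % m, K * h / H, fun j => ⌊(K : ℝ) * Int.fract (α j * h)⌋₊)

/-- The residue classes `a` modulo `m` such that all `a + h i` are prime to `m`. -/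
def admissible (m : ℕ) {r : ℕ} (h : Fin r → ℕ) : Finset ℕ := (Icc 1 m).filter (fun a => ∀ i, (a + h i).Coprime m)

/-- The factor `F(h)`: the average over the `a` in `admissible m h` and over `t` of the product over `i` of
`X (type of h i) a t`. -/
noncomputable def factor {K T : ℕ} (m H : ℕ) (α : Fin K → ℝ) (X : ℕ × ℕ × (Fin K → ℕ) → ℕ → Fin T → ℝ) {r : ℕ}
    (h : Fin r → ℕ) : ℝ :=
  (∑ a ∈ admissible m h, (∑ t, ∏ i, X (shiftType K m H α (h i)) a t) / T) / (admissible m h).card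

lemma singularSeries_eq {r : ℕ} (a : Fin r → ℕ) :
    Pool.Agent.H386R2.HL.singularSeries a = singularSeries a := by
  unfold Pool.Agent.H386R2.HL.singularSeries singularSeries
  congr 1
  ext p
  unfold Pool.Agent.H386R2.HL.localFactor
  rw [inv_pow, inv_mul_eq_div]
  rfl

lemma admissible_eq {w r : ℕ} (h : Fin r → ℕ) (hh : ∀ i, 1 ≤ h i) :
    Pool.Agent.NH16.BT.adm w h = admissible (Pool.Agent.NH16.DL.Wn w) h := by
  unfold Pool.Agent.NH16.BT.adm admissible
  refine filter_congr fun a _ => forall_congr' fun i => ?_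
  constructor
  · intro h1
    rw [Nat.coprime_iff_gcd_eq_one]
    by_contra hne
    obtain ⟨p, hp, hd⟩ := Nat.exists_prime_and_dvd hne
    have h2 : p ∣ Pool.Agent.NH16.DL.Wn w := hd.trans (Nat.gcd_dvd_right _ _)
    exact h1 p (Pool.Agent.NH16.DL.mem_PP.2 ⟨hp, (Pool.Agent.NH16.DL.dvd_Wn hp).1 h2⟩) (hd.trans (Nat.gcd_dvd_left _ _))
  · intro h1 p hp hd
    have hp' := Pool.Agent.NH16.DL.mem_PP.1 hp
    have h2 : p ∣ Pool.Agent.NH16.DL.Wn w := (Pool.Agent.NH16.DL.dvd_Wn hp'.1).2 hp'.2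
    have h3 : p ∣ 1 := by
      rw [← h1]
      exact Nat.dvd_gcd hd h2
    exact hp'.1.one_lt.ne' (Nat.dvd_one.1 h3)

lemma factor_eq {w K T H r : ℕ} (α : Fin K → ℝ) (X : ℕ × ℕ × (Fin K → ℕ) → ℕ → Fin T → ℝ) (h : Fin r → ℕ)
    (hh : ∀ i, 1 ≤ h i) :
    Pool.Agent.NH16.BT.fac (m := Pool.Agent.NH16.DL.Wn w) (H := H) w α X h =
      factor (Pool.Agent.NH16.DL.Wn w) H α X h := by
  unfold Pool.Agent.NH16.BT.fac factor
  rw [admissible_eq h hh]
  rfl

/-- For every `R` there is `C` such that for every `δ > 0` there are `m ≤ K` and `b` such that for every `ε > 0`, all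
large `N` and all `H` with `b log N ≤ H ≤ N ^ (1 - ε)` there are real numbers `α j` and a nonnegative function `X c`
on `{1, ..., m} × {1, ..., T}` for every type `c` such that the factor `F(h)` is `1 + O(δ)` for single shifts and for
every `1 ≤ r ≤ R`: `F(h) ≤ C` on `[1, H] ^ r`, `F(h) ≥ 1 - δ` if all components of `h` have the same type, and
`|π(N; h) - F(h) 𝔖(h) N / log ^ r N| ≤ δ N / log ^ r N` for all but at most `δ H ^ r` of the `h ∈ [1, H] ^ r`. -/
theorem result (R : ℕ) : ∃ C : ℝ, ∀ δ : ℝ, 0 < δ → ∃ (m K : ℕ) (b : ℝ), 1 ≤ m ∧ m ≤ K ∧ ∀ ε : ℝ, 0 < ε →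
    ∀ᶠ N : ℕ in atTop, ∀ H : ℕ, b * Real.log N ≤ H → (H : ℝ) ≤ (N : ℝ) ^ (1 - ε) →
      ∃ (T : ℕ) (α : Fin K → ℝ) (X : ℕ × ℕ × (Fin K → ℕ) → ℕ → Fin T → ℝ), 1 ≤ T ∧ (∀ c a t, 0 ≤ X c a t) ∧
        (∀ h ∈ Icc 1 H, |factor m H α X (fun _ : Fin 1 => h) - 1| ≤ δ) ∧
        ∀ r : ℕ, 1 ≤ r → r ≤ R →
          (∀ h ∈ Fintype.piFinset (fun _ : Fin r => Icc 1 H), factor m H α X h ≤ C ∧
            ((∀ i j, shiftType K m H α (h i) = shiftType K m H α (h j)) → 1 - δ ≤ factor m H α X h)) ∧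
          (((Fintype.piFinset (fun _ : Fin r => Icc 1 H)).filter (fun h => δ * (N / Real.log N ^ r) <
            |(primeTuples h N : ℝ) - factor m H α X h * singularSeries h * (N / Real.log N ^ r)|)).card : ℝ) ≤
            δ * (H : ℝ) ^ r := by
  obtain ⟨C, -, h⟩ := Pool.Agent.NH16.BT.Main.main R
  refine ⟨C, fun δ hδ => ?_⟩
  obtain ⟨w, K, b, -, hK, h⟩ := h δ hδ
  refine ⟨Pool.Agent.NH16.DL.Wn w, K, b, Pool.Agent.NH16.DL.Wn_pos w, hK, fun ε hε => ?_⟩
  filter_upwards [h ε hε] with N hN H hH1 hH2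
  obtain ⟨T, α, X, h1, h2, h3, h4⟩ := hN H hH1 hH2
  refine ⟨T, α, X, h1, h2, fun h hh => ?_, fun r hr1 hrR => ?_⟩
  · rw [← factor_eq α X (fun _ : Fin 1 => h) (fun _ => (mem_Icc.1 hh).1)]
    exact h3 h hh
  · obtain ⟨n, rfl⟩ := Nat.exists_eq_add_of_le' hr1
    obtain ⟨h5, h6, h7⟩ := h4 n (by omega)
    refine ⟨fun h hh => ?_, ?_⟩
    · rw [Fintype.mem_piFinset] at hh
      rw [← factor_eq α X h (fun i => (mem_Icc.1 (hh i)).1)]
      exact ⟨h5 h hh, fun hty => h6 h hh hty⟩
    · refine le_trans (le_of_eq ?_) h7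
      congr 2
      refine filter_congr fun a ha => ?_
      rw [Fintype.mem_piFinset] at ha
      rw [← factor_eq α X a (fun i => (mem_Icc.1 (ha i)).1), singularSeries_eq]
      rfl

end Pool.Agent.Results.MP_e87c7d_nt.TypesOfShifts
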